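import Pool.Agent.H.MP_92e33a_gt.B

namespace Pool.Agent.Results.MP_92e33a_gt.No

open CategoryTheory Pool.Agent.H.MP_92e33a_gt

universe u

theorem result : ∃ F : CompHaus.{u} ⥤ CompHaus.{u},
    Normal F ∧ Finitary F ∧ DegreeLE F 2 ∧ SkeletalFunctor F ∧ ¬ OpenFunctor F :=
  ⟨FF, FF_normal, FF_finitary, FF_degree, FF_skel, FF_not_open⟩

end Pool.Agent.Results.MP_92e33a_gt.No
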